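import Pool.Agent.H74.OLP.Targets2

/-!
# Row COV of olp_modules: the labels of an oriented cycle double cover
-/

set_option autoImplicit false

open Finset Pool.Agent.H74.OLP
open scoped Classical

namespace Pool.Agent.H46.OLP

theorem cv_z2 : ∀ a : R, a = 0 ∨ a = 1 := by decide

theorem cv_alg1 : ∀ a b c d D : R, c + d = D → D = 1 + a + b → a + c + (b + d) = 1 := by
  decide

theorem cv_alg2 : ∀ a b c d C : R, a + b = 1 → c + d = C → b + d = 1 + C + (a + c) := by
  decide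

theorem cv_alg3 : ∀ a b : R, a + b = 1 → b = 1 → a ≠ 1 := by decide

theorem cv_alg4 : ∀ sl tl sr D kl kr : R, sl + tl = 1 → sl + sr = D → kl + kr = 1 + D →
    tl + kl = sr + kr := by decide

theorem cv_alg5 : ∀ sl sr D kl kr : R, sl + sr = D → kl + kr = 1 + D →
    (sl + kl) + (sr + kr) = 1 := by decide

theorem cv_alg6 : ∀ a b : R, a + b = 0 → a = b := by decide

theorem cv_alg7 : ∀ a b : R, a + b = 1 → a = 0 → b = 1 := by decide

theorem cv_alg8 : ∀ a b : R, a + b = 1 → a = 1 → b = 0 := by decide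

theorem cv_bit (a b : R) (h : a + b = 1) :
    (if a = 1 then 1 else 0 : ℕ) ≠ (if b = 1 then 1 else 0) := by
  rcases cv_z2 a with ha | ha
  · rw [cv_alg7 a b h ha, ha]; simp
  · rw [cv_alg8 a b h ha, ha]; simp

section

variable {V E F : Type} (M : CMap V E F) (σ : V → F → R)

/-- the number which decides which face follows -/
noncomputable def cv_A (f : F) (e : E) (v : V) : R := M.out f e v + σ v f

/-- the first face -/
noncomputable def cv_ph (v : V) (e : E) : F :=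
  if cv_A M σ (M.l e) e v = 1 then M.l e else M.r e

/-- the second face -/
noncomputable def cv_ps (v : V) (e : E) : F :=
  if cv_A M σ (M.l e) e v = 1 then M.r e else M.l e

/-- the labels -/
noncomputable def cv_lb (X : Set F) (κ : F → R) (j : F → ℕ) (v : V) (f : F) : ℕ :=
  if f ∈ X then (if σ v f + κ f = 1 then 1 else 0) else j f + 2

theorem cv_sum (hd3 : ∀ e, M.D1 e = 1 + M.out (M.l e) e (M.t e) + M.out (M.r e) e (M.t e))
    (C : E → R) (hC : M.Cor σ C M.D1) (e : E) (v : V) (hv : M.OnV e v) :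
    cv_A M σ (M.l e) e v + cv_A M σ (M.r e) e v = 1 := by
  obtain ⟨h1, h2, h3, h4⟩ := hC e
  unfold cv_A
  rcases hv with hv | hv
  · rw [← hv]
    exact cv_alg1 _ _ _ _ _ h3 rfl
  · rw [← hv]
    exact cv_alg1 _ _ _ _ _ h4 (hd3 e)

theorem cv_one (e : E) (v : V) (hlr : M.l e ≠ M.r e)
    (hsum : cv_A M σ (M.l e) e v + cv_A M σ (M.r e) e v = 1) (f g : F)
    (hF : ∀ h, M.OnF e h ↔ (h = f ∨ h = g)) (h1 : cv_A M σ f e v = 1) :
    cv_ph M σ v e = f ∧ cv_ps M σ v e = g := by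
  have hl : M.l e = f ∨ M.l e = g := (hF _).1 (Or.inl rfl)
  have hr : M.r e = f ∨ M.r e = g := (hF _).1 (Or.inr rfl)
  unfold cv_ph cv_ps
  rcases hl with hl | hl <;> rcases hr with hr | hr
  · exact absurd (hl.trans hr.symm) hlr
  · rw [hl, hr, if_pos h1, if_pos h1]; exact ⟨rfl, rfl⟩
  · rw [hl, hr] at hsum
    have h2 : cv_A M σ g e v ≠ 1 := cv_alg3 _ _ hsum h1
    rw [hl, hr, if_neg h2, if_neg h2]; exact ⟨rfl, rfl⟩
  · exact absurd (hl.trans hr.symm) hlr

variable (X : Set F) (κ : F → R) (j : F → ℕ)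

theorem cv_I (hok : ∀ e f, M.OnF e f → M.out f e (M.s e) + M.out f e (M.t e) = 1)
    (hC : M.Cor σ (M.ch X) M.D1)
    (hκ : ∀ e, M.l e ∈ X → M.r e ∈ X → κ (M.l e) + κ (M.r e) = 1 + M.D1 e) (e : E) :
    cv_lb σ X κ j (M.t e) (cv_ph M σ (M.t e) e) = cv_lb σ X κ j (M.s e) (cv_ps M σ (M.s e) e) ∧
    cv_lb σ X κ j (M.s e) (cv_ph M σ (M.s e) e) =
      cv_lb σ X κ j (M.t e) (cv_ps M σ (M.t e) e) := by
  obtain ⟨h1, h2, h3, h4⟩ := hC e
  have ht : cv_A M σ (M.l e) e (M.t e) = 1 + M.ch X e + cv_A M σ (M.l e) e (M.s e) :=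
    cv_alg2 _ _ _ _ _ (hok e _ (Or.inl rfl)) h1
  by_cases hX : M.l e ∈ X ∧ M.r e ∈ X
  · have hc : M.ch X e = 1 := if_pos hX
    have hk := hκ e hX.1 hX.2
    rw [hc] at h1 h2 ht
    have e1 : cv_lb σ X κ j (M.t e) (M.l e) = cv_lb σ X κ j (M.s e) (M.r e) := by
      unfold cv_lb
      rw [if_pos hX.1, if_pos hX.2, cv_alg4 _ _ _ _ _ _ h1 h3 hk]
    have e2 : cv_lb σ X κ j (M.s e) (M.l e) = cv_lb σ X κ j (M.t e) (M.r e) := by
      unfold cv_lb
      rw [if_pos hX.1, if_pos hX.2, cv_alg4 _ _ _ _ _ _ ((add_comm _ _).trans h1) h4 hk]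
    have ht' : cv_A M σ (M.l e) e (M.t e) = cv_A M σ (M.l e) e (M.s e) := by
      rw [ht, show (1 : R) + 1 = 0 by decide, zero_add]
    unfold cv_ph cv_ps
    rw [ht']
    by_cases hA : cv_A M σ (M.l e) e (M.s e) = 1
    · rw [if_pos hA, if_pos hA]
      exact ⟨e1, e2⟩
    · rw [if_neg hA, if_neg hA]
      exact ⟨e2.symm, e1.symm⟩
  · have hc : M.ch X e = 0 := if_neg hX
    rw [hc] at h1 h2 ht
    have e1 : cv_lb σ X κ j (M.t e) (M.l e) = cv_lb σ X κ j (M.s e) (M.l e) := by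
      unfold cv_lb
      rw [cv_alg6 _ _ h1]
    have e2 : cv_lb σ X κ j (M.t e) (M.r e) = cv_lb σ X κ j (M.s e) (M.r e) := by
      unfold cv_lb
      rw [cv_alg6 _ _ h2]
    unfold cv_ph cv_ps
    rw [add_zero] at ht
    rcases cv_z2 (cv_A M σ (M.l e) e (M.s e)) with hA | hA
    · rw [ht, hA, if_pos (by decide), if_neg (by decide), if_neg (by decide),
        if_pos (by decide)]
      exact ⟨e1, e2.symm⟩
    · rw [ht, hA, if_neg (by decide), if_pos (by decide), if_pos (by decide),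
        if_neg (by decide)]
      exact ⟨e2, e1.symm⟩

theorem cv_II (hj : Function.Injective j) (hC : M.Cor σ (M.ch X) M.D1) (e : E)
    (hlr : M.l e ≠ M.r e)
    (hκ : ∀ e, M.l e ∈ X → M.r e ∈ X → κ (M.l e) + κ (M.r e) = 1 + M.D1 e) :
    cv_lb σ X κ j (M.s e) (M.l e) ≠ cv_lb σ X κ j (M.s e) (M.r e) := by
  obtain ⟨h1, h2, h3, h4⟩ := hC e
  unfold cv_lb
  by_cases hl : M.l e ∈ X <;> by_cases hr : M.r e ∈ X
  · rw [if_pos hl, if_pos hr]
    exact cv_bit _ _ (cv_alg5 _ _ _ _ _ h3 (hκ e hl hr))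
  · rw [if_pos hl, if_neg hr]
    split_ifs <;> omega
  · rw [if_neg hl, if_pos hr]
    split_ifs <;> omega
  · rw [if_neg hl, if_neg hr]
    intro hc
    exact hlr (hj (by omega))

end

theorem pf_COV (h1 : T_DIR) : T_COV := by
  intro V E F _ _ _ M hM X σ κ hC hκ
  obtain ⟨d1, d2, d3, -⟩ := h1 V E F M hM
  obtain ⟨j, hj⟩ : ∃ j : F → ℕ, Function.Injective j :=
    ⟨fun f => (Fintype.equivFin F f : ℕ), fun a b h =>
      (Fintype.equivFin F).injective (Fin.ext h)⟩
  have hI := cv_I M σ X κ j d1 hC hκ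
  refine ⟨fun v e => cv_lb σ X κ j v (cv_ph M σ v e), ?_, ?_⟩
  · intro e
    have h2 := (hI e).1
    have h3 := cv_II M σ X κ j hj hC e (hM.lr e) hκ
    show cv_lb σ X κ j (M.s e) (cv_ph M σ (M.s e) e) ≠
      cv_lb σ X κ j (M.t e) (cv_ph M σ (M.t e) e)
    rw [h2]
    unfold cv_ph cv_ps
    by_cases hA : cv_A M σ (M.l e) e (M.s e) = 1
    · rw [if_pos hA, if_pos hA]
      exact h3
    · rw [if_neg hA, if_neg hA]
      exact h3.symm
  · intro v k
    obtain ⟨a, b, c, x, y, z, hab, hbc, hac, hxy, hyz, hxz, hv, ha, hb, hc⟩ := hM.tri v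
    have s1 : (univ.filter fun e => (M.s e = v ∨ M.t e = v) ∧
        cv_lb σ X κ j v (cv_ph M σ v e) = k) =
        ({a, b, c} : Finset E).filter fun e => cv_lb σ X κ j v (cv_ph M σ v e) = k := by
      ext e
      simp only [mem_filter, mem_univ, true_and, mem_insert, mem_singleton]
      exact and_congr_left fun _ => hv e
    have s2 : (univ.filter fun e => (M.s e = v ∧
        cv_lb σ X κ j (M.t e) (cv_ph M σ (M.t e) e) = k) ∨
        (M.t e = v ∧ cv_lb σ X κ j (M.s e) (cv_ph M σ (M.s e) e) = k)) =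
        ({a, b, c} : Finset E).filter fun e => cv_lb σ X κ j v (cv_ps M σ v e) = k := by
      ext e
      simp only [mem_filter, mem_univ, true_and, mem_insert, mem_singleton]
      rw [(hI e).1, (hI e).2, ← hv e]
      unfold CMap.OnV
      constructor
      · rintro (⟨h, h'⟩ | ⟨h, h'⟩)
        · rw [h] at h'; exact ⟨Or.inl h, h'⟩
        · rw [h] at h'; exact ⟨Or.inr h, h'⟩
      · rintro ⟨h | h, h'⟩
        · left; refine ⟨h, ?_⟩; rw [h]; exact h'
        · right; refine ⟨h, ?_⟩; rw [h]; exact h'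
    have hva : M.OnV a v := (hv a).2 (Or.inl rfl)
    have hvb : M.OnV b v := (hv b).2 (Or.inr (Or.inl rfl))
    have hvc : M.OnV c v := (hv c).2 (Or.inr (Or.inr rfl))
    have sa := cv_sum M σ d3 _ hC a v hva
    have sb := cv_sum M σ d3 _ hC b v hvb
    have sc := cv_sum M σ d3 _ hC c v hvc
    have oa := cv_one M σ a v (hM.lr a) sa
    have ob := cv_one M σ b v (hM.lr b) sb
    have oc := cv_one M σ c v (hM.lr c) sc
    -- the two faces of an edge
    have key : ∀ (e : E) (f g : F), M.OnV e v → M.l e ≠ M.r e → f ≠ g →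
        (∀ h, M.OnF e h ↔ (h = f ∨ h = g)) → cv_A M σ f e v + cv_A M σ g e v = 1 := by
      intro e f g hev hlr hfg hF
      have hs := cv_sum M σ d3 _ hC e v hev
      have hl : M.l e = f ∨ M.l e = g := (hF _).1 (Or.inl rfl)
      have hr : M.r e = f ∨ M.r e = g := (hF _).1 (Or.inr rfl)
      rcases hl with hl | hl <;> rcases hr with hr | hr
      · exact absurd (hl.trans hr.symm) hlr
      · rw [hl, hr] at hs; exact hs
      · rw [hl, hr] at hs; rw [add_comm]; exact hs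
      · exact absurd (hl.trans hr.symm) hlr
    have swp : ∀ (f : F) (e e' : E), M.OnF e f → M.OnF e' f → M.OnV e v → M.OnV e' v →
        e ≠ e' → cv_A M σ f e v + cv_A M σ f e' v = 1 := by
      intro f e e' h h' g g' hne
      have := d2 f e e' v h h' g g' hne
      unfold cv_A
      have e3 : ∀ p q s : R, p + q = 1 → p + s + (q + s) = 1 := by decide
      exact e3 _ _ _ this
    have ka := key a y z hva (hM.lr a) hyz ha
    have kb := key b z x hvb (hM.lr b) hxz.symm hb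
    have kc := key c x y hvc (hM.lr c) hxy hc
    have wz := swp z a b ((ha z).2 (Or.inr rfl)) ((hb z).2 (Or.inl rfl)) hva hvb hab
    have wx := swp x b c ((hb x).2 (Or.inr rfl)) ((hc x).2 (Or.inl rfl)) hvb hvc hbc
    show (univ.filter fun e => (M.s e = v ∨ M.t e = v) ∧
        cv_lb σ X κ j v (cv_ph M σ v e) = k).card = (univ.filter fun e => (M.s e = v ∧
        cv_lb σ X κ j (M.t e) (cv_ph M σ (M.t e) e) = k) ∨
        (M.t e = v ∧ cv_lb σ X κ j (M.s e) (cv_ph M σ (M.s e) e) = k)).card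
    rw [s1, s2, card_filter, card_filter]
    have hsm : ∀ q : E → ℕ, ∑ e ∈ ({a, b, c} : Finset E), q e = q a + q b + q c := by
      intro q
      rw [sum_insert (by simp [hab, hac]), sum_insert (by simp [hbc]), sum_singleton]
      ring
    rw [hsm, hsm]
    rcases cv_z2 (cv_A M σ z a v) with hα | hα
    · -- A z a = 0
      have ya : cv_A M σ y a v = 1 := cv_alg7 _ _ ((add_comm _ _).trans ka) hα
      have zb : cv_A M σ z b v = 1 := cv_alg7 _ _ wz hα
      have xb : cv_A M σ x b v = 0 := cv_alg8 _ _ kb zb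
      have xc : cv_A M σ x c v = 1 := cv_alg7 _ _ wx xb
      obtain ⟨pa, qa⟩ := oa y z ha ya
      obtain ⟨pb, qb⟩ := ob z x hb zb
      obtain ⟨pc, qc⟩ := oc x y hc xc
      rw [pa, pb, pc, qa, qb, qc]
      ring
    · -- A z a = 1
      have zb : cv_A M σ z b v = 0 := cv_alg8 _ _ wz hα
      have xb : cv_A M σ x b v = 1 := cv_alg7 _ _ kb zb
      have xc : cv_A M σ x c v = 0 := cv_alg8 _ _ wx xb
      have yc : cv_A M σ y c v = 1 := cv_alg7 _ _ kc xc
      obtain ⟨pa, qa⟩ := oa z y (fun h => by rw [ha h, or_comm]) hα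
      obtain ⟨pb, qb⟩ := ob x z (fun h => by rw [hb h, or_comm]) xb
      obtain ⟨pc, qc⟩ := oc y x (fun h => by rw [hc h, or_comm]) yc
      rw [pa, pb, pc, qa, qb, qc]
      ring

end Pool.Agent.H46.OLP
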